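import Pool.Agent.H65.FU.Prism
import Pool.Agent.H21.TU.Hat

/-!
# Project FULL: alternating extension of cochains to all sequences of vertices
-/

set_option autoImplicit false

namespace Pool.Agent.H65.FU

open Pool.Agent.H21.TU
open Pool.Agent.H47.ST (Co Simp In dd dX cut co sgn Adj tr dd_apply)

/-- the first `n` entries -/
def rs {V : Type*} (n : ℕ) (s : ℕ → V) : Fin n → V := fun i => s i

theorem rs_del {V : Type*} (n : ℕ) (s : ℕ → V) (k : Fin (n + 1)) :
    rs n (del k s) = rs (n + 1) s ∘ k.succAbove := by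
  funext i
  show (if (i : ℕ) < k then s i else s (i + 1)) = s (k.succAbove i)
  by_cases h : (i : ℕ) < k
  · rw [if_pos h, Fin.succAbove_of_castSucc_lt _ _ (by rw [Fin.lt_def]; simpa using h)]
    rfl
  · rw [if_neg h, Fin.succAbove_of_le_castSucc _ _ (by rw [Fin.le_def]; simpa using h)]
    rfl

variable {ι F : Type*} [Fintype ι] [DecidableEq ι] [Field F]

open Classical in
/-- number of inversions -/
noncomputable def iv {n : ℕ} (t : Fin n → ι → ℤ) : ℕ :=
  ∑ i, ∑ j, if i < j ∧ t j < t i then 1 else 0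

open Classical in
omit [Fintype ι] [DecidableEq ι] in
theorem iv_succAbove {n : ℕ} (t : Fin (n + 1) → ι → ℤ) (k : Fin (n + 1)) :
    iv t = iv (t ∘ k.succAbove) + ((∑ i, if i < k ∧ t k < t i then 1 else 0) +
      ∑ j, if k < j ∧ t j < t k then 1 else 0) := by
  unfold iv
  rw [Fin.sum_univ_succAbove _ k]
  have h1 : ∀ i : Fin n, (∑ j, if k.succAbove i < j ∧ t j < t (k.succAbove i) then 1 else 0) =
      (if k.succAbove i < k ∧ t k < t (k.succAbove i) then 1 else 0) +
        ∑ j : Fin n, if i < j ∧ (t ∘ k.succAbove) j < (t ∘ k.succAbove) i then 1 else 0 := by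
    intro i
    rw [Fin.sum_univ_succAbove _ k]
    congr 1
    refine Finset.sum_congr rfl fun j _ => ?_
    simp only [Function.comp, Fin.succAbove_lt_succAbove_iff]
  rw [Finset.sum_congr rfl fun i _ => h1 i, Finset.sum_add_distrib,
    Fin.sum_univ_succAbove (fun i => if i < k ∧ t k < t i then 1 else 0) k]
  simp only [lt_irrefl, false_and, if_false]
  ring

open Classical in
/-- the alternating extension of a cochain -/
noncomputable def alt (p : ℕ) (u : Co ι F) : K (ι → ℤ) F := fun s =>
  if Function.Injective (rs (p + 1) s) then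
    (-1) ^ iv (rs (p + 1) s) * u (Finset.univ.image (rs (p + 1) s)) else 0

omit [DecidableEq ι] in
theorem Dep_alt (p : ℕ) (u : Co ι F) : Dep p (alt p u) := by
  classical
  intro s t hst
  have h : rs (p + 1) s = rs (p + 1) t := by
    funext i
    exact hst i (by omega)
  unfold alt
  rw [h]

open Classical in
omit [DecidableEq ι] in
theorem alt_sgn {n : ℕ} {t : Fin (n + 1) → ι → ℤ} (hinj : Function.Injective t)
    (hadj : ∀ i j, Adj (t i) (t j)) (k : Fin (n + 1)) :
    (-1 : F) ^ (k : ℕ) * (-1) ^ iv (t ∘ k.succAbove) =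
      (-1) ^ iv t * sgn F (Finset.univ.image t) (t k) := by
  have h1 : ((Finset.univ.image t).filter (fun w => w < t k)).card =
      ∑ j, if t j < t k then 1 else 0 := by
    rw [Finset.filter_image, Finset.card_image_of_injective _ hinj, Finset.card_filter]
  have h2 : (∑ j, if t j < t k then 1 else 0) = (∑ j, if j < k ∧ t j < t k then 1 else 0) +
      ∑ j, if k < j ∧ t j < t k then 1 else 0 := by
    rw [← Finset.sum_add_distrib]
    refine Finset.sum_congr rfl fun j _ => ?_
    rcases lt_trichotomy j k with h | h | h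
    · simp [h, h.not_gt]
    · simp [h]
    · simp [h, h.not_gt]
  have h3 : (∑ j, if j < k ∧ t k < t j then 1 else 0) +
      (∑ j, if j < k ∧ t j < t k then 1 else 0) = (k : ℕ) := by
    rw [← Finset.sum_add_distrib]
    have h4 : ∀ j : Fin (n + 1), ((if j < k ∧ t k < t j then 1 else 0) +
        if j < k ∧ t j < t k then 1 else 0) = if j < k then 1 else 0 := by
      intro j
      by_cases h : j < k
      · have hne : t j ≠ t k := fun he => h.ne (hinj he)
        rcases hadj j k with h' | h'
        · have h5 : t j < t k := lt_of_le_of_ne h'.1 hne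
          simp [h, h5, h5.not_gt]
        · have h5 : t k < t j := lt_of_le_of_ne h'.1 hne.symm
          simp [h, h5, h5.not_gt]
      · simp [h]
    rw [Finset.sum_congr rfl fun j _ => h4 j, ← Finset.card_filter]
    have h5 : Finset.univ.filter (fun j : Fin (n + 1) => j < k) = Finset.Iio k := by
      ext j
      simp
    rw [h5, Fin.card_Iio]
  unfold sgn
  rw [h1, h2, iv_succAbove t k, ← h3]
  simp only [pow_add]
  have h6 : ∀ m : ℕ, (-1 : F) ^ m * (-1) ^ m = 1 := fun m => by
    rw [← mul_pow, neg_one_mul, neg_neg, one_pow]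
  have h7 := h6 (∑ j, if k < j ∧ t j < t k then 1 else 0)
  linear_combination (-((-1 : F) ^ iv (t ∘ k.succAbove)) *
    (-1) ^ (∑ j, if j < k ∧ t k < t j then 1 else 0) *
    (-1) ^ (∑ j, if j < k ∧ t j < t k then 1 else 0)) * h7

open Classical in
omit [Fintype ι] [DecidableEq ι] in
/-- the sign identity for two equal entries -/
theorem alt_pair {n : ℕ} {t : Fin (n + 1) → ι → ℤ} {a b : Fin (n + 1)} (hab : a < b)
    (he : t a = t b) (hadj : ∀ i j, Adj (t i) (t j))
    (hinj : Function.Injective (t ∘ a.succAbove)) :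
    (-1 : F) ^ (a : ℕ) * (-1) ^ iv (t ∘ a.succAbove) +
      (-1) ^ (b : ℕ) * (-1) ^ iv (t ∘ b.succAbove) = 0 := by
  have hne : ∀ i, i ≠ a → i ≠ b → t i ≠ t b := by
    intro i hia hib h
    obtain ⟨k, hk⟩ := Fin.exists_succAbove_eq hia
    obtain ⟨l, hl⟩ := Fin.exists_succAbove_eq hab.ne'
    have h1 : k = l := hinj (by simp only [Function.comp, hk, hl, h])
    rw [h1, hl] at hk
    exact hib hk.symm
  have g1 : (∑ i, if i < b ∧ t b < t i then 1 else 0) = (∑ i, if i < a ∧ t a < t i then 1 else 0) +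
      ∑ i, if (a < i ∧ i < b) ∧ t b < t i then 1 else 0 := by
    rw [← Finset.sum_add_distrib]
    refine Finset.sum_congr rfl fun i _ => ?_
    rw [he]
    rcases lt_trichotomy i a with h | h | h
    · simp [h, h.trans hab, h.not_gt]
    · subst h
      simp [he]
    · simp [h, h.not_gt]
  have g2 : (∑ i, if a < i ∧ t i < t a then 1 else 0) = (∑ i, if b < i ∧ t i < t b then 1 else 0) +
      ∑ i, if (a < i ∧ i < b) ∧ t i < t b then 1 else 0 := by
    rw [← Finset.sum_add_distrib]
    refine Finset.sum_congr rfl fun i _ => ?_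
    rw [he]
    rcases lt_trichotomy i b with h | h | h
    · simp [h, h.not_gt]
    · subst h
      simp
    · simp [h, hab.trans h, h.not_gt]
  have g3 : (∑ i, if (a < i ∧ i < b) ∧ t b < t i then 1 else 0) +
      (∑ i, if (a < i ∧ i < b) ∧ t i < t b then 1 else 0) + 1 + (a : ℕ) = (b : ℕ) := by
    rw [← Finset.sum_add_distrib]
    have h4 : ∀ i : Fin (n + 1), ((if (a < i ∧ i < b) ∧ t b < t i then 1 else 0) +
        if (a < i ∧ i < b) ∧ t i < t b then 1 else 0) = if a < i ∧ i < b then 1 else 0 := by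
      intro i
      by_cases h : a < i ∧ i < b
      · have hn := hne i h.1.ne' h.2.ne
        rcases hadj i b with h' | h'
        · have h5 : t i < t b := lt_of_le_of_ne h'.1 hn
          simp [h, h5, h5.not_gt]
        · have h5 : t b < t i := lt_of_le_of_ne h'.1 hn.symm
          simp [h, h5, h5.not_gt]
      · simp [h]
    rw [Finset.sum_congr rfl fun i _ => h4 i, ← Finset.card_filter]
    have h5 : Finset.univ.filter (fun j : Fin (n + 1) => a < j ∧ j < b) = Finset.Ioo a b := by
      ext j
      simp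
    rw [h5, Fin.card_Ioo]
    have := Fin.lt_def.mp hab
    omega
  have k1 := iv_succAbove t a
  have k2 := iv_succAbove t b
  rw [g2] at k1
  rw [g1] at k2
  set D1 := ∑ i, if (a < i ∧ i < b) ∧ t b < t i then 1 else 0
  set D2 := ∑ i, if (a < i ∧ i < b) ∧ t i < t b then 1 else 0
  have k3 : iv (t ∘ a.succAbove) + D2 = iv (t ∘ b.succAbove) + D1 := by omega
  have k4 : (-1 : F) ^ iv (t ∘ a.succAbove) * (-1) ^ D2 = (-1) ^ iv (t ∘ b.succAbove) * (-1) ^ D1 := by
    rw [← pow_add, ← pow_add, k3]
  have h6 : ∀ m : ℕ, (-1 : F) ^ m * (-1) ^ m = 1 := fun m => by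
    rw [← mul_pow, neg_one_mul, neg_neg, one_pow]
  rw [← g3]
  simp only [pow_add, pow_one]
  linear_combination ((-1 : F) ^ (a : ℕ) * (-1) ^ D2) * k4 -
    ((-1 : F) ^ (a : ℕ) * (-1) ^ iv (t ∘ a.succAbove)) * h6 D2

open Classical in
omit [DecidableEq ι] in
theorem alt_inj_iff {n : ℕ} {t : Fin (n + 1) → ι → ℤ} {a b : Fin (n + 1)} (hab : a ≠ b)
    (he : t a = t b) :
    Finset.univ.image (t ∘ a.succAbove) = Finset.univ.image t ∧
    Finset.univ.image (t ∘ b.succAbove) = Finset.univ.image t := by
  have key : ∀ a b : Fin (n + 1), a ≠ b → t a = t b →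
      Finset.univ.image (t ∘ a.succAbove) = Finset.univ.image t := by
    intro a b hab he
    ext v
    simp only [Finset.mem_image, Finset.mem_univ, true_and, Function.comp]
    constructor
    · rintro ⟨i, rfl⟩
      exact ⟨_, rfl⟩
    · rintro ⟨i, rfl⟩
      by_cases h : i = a
      · subst h
        obtain ⟨j, hj⟩ := Fin.exists_succAbove_eq hab.symm
        exact ⟨j, by rw [hj, he]⟩
      · obtain ⟨j, hj⟩ := Fin.exists_succAbove_eq h
        exact ⟨j, by rw [hj]⟩
  exact ⟨key a b hab he, key b a hab.symm he.symm⟩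

open Classical in
/-- **The alternating extension commutes with the coboundary.** -/
theorem d_alt (p : ℕ) (u : Co ι F) {s : ℕ → ι → ℤ}
    (h : ∀ i ≤ p + 1, ∀ j ≤ p + 1, Adj (s i) (s j)) :
    d p (alt p u) s = alt (p + 1) (dd u) s := by
  set t : Fin (p + 1 + 1) → ι → ℤ := rs (p + 1 + 1) s with ht
  have hadj : ∀ i j, Adj (t i) (t j) := fun i j => h i (by omega) j (by omega)
  have e1 : d p (alt p u) s = ∑ k : Fin (p + 1 + 1), (-1) ^ (k : ℕ) * alt p u (del k s) := by
    unfold d
    rw [Finset.sum_range]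
  have e2 : ∀ k : Fin (p + 1 + 1), alt p u (del k s) =
      if Function.Injective (t ∘ k.succAbove) then
        (-1) ^ iv (t ∘ k.succAbove) * u (Finset.univ.image (t ∘ k.succAbove)) else 0 := by
    intro k
    unfold alt
    rw [rs_del]
  rw [e1]
  have e3 : alt (p + 1) (dd u) s = if Function.Injective t then
      (-1) ^ iv t * dd u (Finset.univ.image t) else 0 := rfl
  rw [e3]
  by_cases hinj : Function.Injective t
  · rw [if_pos hinj, dd_apply, Finset.mul_sum, Finset.sum_image fun i _ j _ hij => hinj hij]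
    refine Finset.sum_congr rfl fun k _ => ?_
    rw [e2, if_pos (hinj.comp (Fin.succAbove_right_injective)), ← mul_assoc,
      alt_sgn hinj hadj k, mul_assoc]
    congr 2
    congr 1
    ext v
    simp only [Finset.mem_image, Finset.mem_univ, true_and, Finset.mem_erase, Function.comp]
    constructor
    · rintro ⟨i, rfl⟩
      exact ⟨fun he => Fin.succAbove_ne k i (hinj he), _, rfl⟩
    · rintro ⟨hne, i, rfl⟩
      obtain ⟨j, hj⟩ := Fin.exists_succAbove_eq (x := i) (y := k) fun he => hne (by rw [he])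
      exact ⟨j, by rw [hj]⟩
  · rw [if_neg hinj]
    have hex : ∃ a b : Fin (p + 1 + 1), a < b ∧ t a = t b := by
      simp only [Function.Injective, not_forall] at hinj
      obtain ⟨a, b, he, hne⟩ := hinj
      rcases lt_or_gt_of_ne (show a ≠ b from hne) with h1 | h1
      · exact ⟨a, b, h1, he⟩
      · exact ⟨b, a, h1, he.symm⟩
    obtain ⟨a, b, hab, he⟩ := hex
    obtain ⟨i1, i2⟩ := alt_inj_iff hab.ne he
    have h0 : ∀ k, k ≠ a → k ≠ b → alt p u (del k s) = 0 := by
      intro k hka hkb
      rw [e2, if_neg]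
      intro hk
      obtain ⟨i, hi⟩ := Fin.exists_succAbove_eq (x := a) (y := k) hka.symm
      obtain ⟨j, hj⟩ := Fin.exists_succAbove_eq (x := b) (y := k) hkb.symm
      have h1 : i = j := hk (by simp only [Function.comp, hi, hj, he])
      rw [h1, hj] at hi
      exact hab.ne hi.symm
    have h1 : ∑ k : Fin (p + 1 + 1), (-1) ^ (k : ℕ) * alt p u (del k s) =
        (-1) ^ (a : ℕ) * alt p u (del a s) + (-1) ^ (b : ℕ) * alt p u (del b s) := by
      rw [← Finset.sum_pair hab.ne (f := fun k : Fin (p + 1 + 1) =>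
        (-1) ^ (k : ℕ) * alt p u (del k s))]
      symm
      refine Finset.sum_subset (Finset.subset_univ _) fun k _ hk => ?_
      rw [Finset.mem_insert, Finset.mem_singleton, not_or] at hk
      rw [h0 k hk.1 hk.2, mul_zero]
    rw [h1, e2, e2, i1, i2]
    have hcard : ∀ f : Fin (p + 1) → ι → ℤ, Function.Injective f ↔
        (Finset.univ.image f).card = p + 1 := by
      intro f
      rw [← Set.injOn_univ, ← Finset.coe_univ, ← Finset.card_image_iff,
        Finset.card_univ, Fintype.card_fin]
    have hiff : Function.Injective (t ∘ a.succAbove) ↔ Function.Injective (t ∘ b.succAbove) := by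
      rw [hcard, hcard, i1, i2]
    by_cases hia : Function.Injective (t ∘ a.succAbove)
    · rw [if_pos hia, if_pos (hiff.1 hia), ← mul_assoc, ← mul_assoc, ← add_mul,
        alt_pair hab he hadj hia, zero_mul]
    · rw [if_neg hia, if_neg fun h' => hia (hiff.2 h'), mul_zero, mul_zero, add_zero]

open Classical in
omit [DecidableEq ι] in
/-- order embeddings commute with the alternating extension -/
theorem alt_comp (p : ℕ) (u : Co ι F) (g : (ι → ℤ) → ι → ℤ) (hinj : Function.Injective g)
    (hg : ∀ x y, g x < g y ↔ x < y) (s : ℕ → ι → ℤ) :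
    alt p u (fun i => g (s i)) = alt p (fun σ => u (σ.image g)) s := by
  have h1 : rs (p + 1) (fun i => g (s i)) = g ∘ rs (p + 1) s := rfl
  have h2 : iv (g ∘ rs (p + 1) s) = iv (rs (p + 1) s) := by
    unfold iv
    simp only [Function.comp, hg]
  unfold alt
  rw [h1, h2]
  by_cases h : Function.Injective (rs (p + 1) s)
  · rw [if_pos h, if_pos (hinj.comp h)]
    show _ = (-1) ^ iv (rs (p + 1) s) * u (Finset.image g (Finset.image (rs (p + 1) s) Finset.univ))
    rw [Finset.image_image]
  · rw [if_neg h, if_neg fun h' => h (Function.Injective.of_comp h')]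

open Classical in
omit [DecidableEq ι] in
theorem image_rs (p : ℕ) (s : ℕ → ι → ℤ) :
    Finset.univ.image (rs (p + 1) s) = (Finset.range (p + 1)).image s := by
  ext v
  simp only [Finset.mem_image, Finset.mem_univ, true_and, Finset.mem_range, rs]
  constructor
  · rintro ⟨i, rfl⟩
    exact ⟨i, i.2, rfl⟩
  · rintro ⟨i, hi, rfl⟩
    exact ⟨⟨i, hi⟩, rfl⟩

omit [DecidableEq ι] in
/-- two equal entries -/
theorem alt_of_eq (p : ℕ) (u : Co ι F) {s : ℕ → ι → ℤ} {i j : ℕ} (hij : i ≠ j) (hi : i ≤ p)
    (hj : j ≤ p) (h : s i = s j) : alt p u s = 0 := by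
  classical
  unfold alt
  rw [if_neg]
  intro hinj
  have h1 : (⟨i, by omega⟩ : Fin (p + 1)) = ⟨j, by omega⟩ := hinj h
  exact hij (congrArg Fin.val h1)

open Classical in
omit [DecidableEq ι] in
theorem alt_of_zero (p : ℕ) (u : Co ι F) {s : ℕ → ι → ℤ}
    (h : u ((Finset.range (p + 1)).image s) = 0) : alt p u s = 0 := by
  unfold alt
  rw [image_rs, h, mul_zero, ite_self]

omit [DecidableEq ι] in
theorem alt_congr (p : ℕ) {u u' : Co ι F} {s : ℕ → ι → ℤ}
    (h : (∀ i ≤ p, ∀ j ≤ p, s i = s j → i = j) →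
      u ((Finset.range (p + 1)).image s) = u' ((Finset.range (p + 1)).image s)) :
    alt p u s = alt p u' s := by
  classical
  unfold alt
  by_cases hinj : Function.Injective (rs (p + 1) s)
  · rw [if_pos hinj, if_pos hinj, image_rs]
    rw [h]
    intro i hi j hj hij
    have h1 : (⟨i, by omega⟩ : Fin (p + 1)) = ⟨j, by omega⟩ := hinj hij
    exact congrArg Fin.val h1
  · rw [if_neg hinj, if_neg hinj]

omit [DecidableEq ι] in
/-- the alternating extension on increasing sequences -/
theorem alt_inc (p : ℕ) (u : Co ι F) {s : ℕ → ι → ℤ} (h : ∀ i j, i < j → j ≤ p → s i < s j) :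
    alt p u s = u ((Finset.range (p + 1)).image s) := by
  classical
  have hlt : ∀ i j : Fin (p + 1), i < j → rs (p + 1) s i < rs (p + 1) s j := fun i j hij =>
    h i j hij (by omega)
  have hinj : Function.Injective (rs (p + 1) s) := by
    intro i j hij
    by_contra hne
    rcases lt_or_gt_of_ne hne with h1 | h1
    · exact (hlt i j h1).ne hij
    · exact (hlt j i h1).ne hij.symm
  have h0 : iv (rs (p + 1) s) = 0 := by
    unfold iv
    refine Finset.sum_eq_zero fun i _ => Finset.sum_eq_zero fun j _ => ?_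
    rw [if_neg]
    rintro ⟨h1, h2⟩
    exact h2.not_gt (hlt i j h1)
  unfold alt
  rw [if_pos hinj, h0, pow_zero, one_mul, image_rs]

theorem lt_of_succ {p : ℕ} {s : ℕ → ι → ℤ} (h : ∀ i < p, s i < s (i + 1)) (i j : ℕ)
    (hij : i < j) (hj : j ≤ p) : s i < s j := by
  induction j with
  | zero => omega
  | succ j ih =>
    rcases Nat.lt_succ_iff_lt_or_eq.mp hij with h1 | h1
    · exact (ih h1 (by omega)).trans (h j (by omega))
    · rw [h1]
      exact h j (by omega)

/-- back from sequences to simplices -/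
theorem fl_alt {p : ℕ} (u : Co ι F) {σ : Finset (ι → ℤ)} (h : Simp σ) (hc : σ.card = p + 1) :
    fl p (alt p u) σ = u σ := by
  classical
  obtain ⟨h1, h2, h3⟩ := en_spec h hc
  unfold fl
  rw [if_pos ⟨h, hc⟩, alt_inc p u (lt_of_succ h1), h3]

end Pool.Agent.H65.FU
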