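import Pool.Agent.H65.FU.Prism
import Pool.Agent.H21.TU.Hat

/-!
# Project FULL: extension of cochains on Kuhn chains to all sequences of vertices

`hh` is the contraction of the box above `a` (sum of the prisms between the clips
`v ↦ min v (a + c)`), `E` the extension by iterated contraction to the minimum of the tuple.
-/

set_option autoImplicit false

namespace Pool.Agent.H65.FU

open Pool.Agent.H21.TU

section gen

variable {V W F : Type*} [Field F]

/-- `d` depends only on the faces -/
theorem d_congr (p : ℕ) {c c' : K V F} {s : ℕ → V} (h : ∀ k ≤ p + 1, c (del k s) = c' (del k s)) :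
    d p c s = d p c' s := by
  unfold d
  refine Finset.sum_congr rfl fun i hi => ?_
  rw [Finset.mem_range] at hi
  rw [h i (by omega)]

theorem d_zero' (p : ℕ) : d p (0 : K V F) = 0 := by
  funext s
  unfold d
  exact Finset.sum_eq_zero fun i _ => by rw [Pi.zero_apply, mul_zero]

theorem d_d (p : ℕ) {c : K V F} (hc : Dep p c) (s : ℕ → V) : d (p + 1) (d p c) s = 0 := by
  induction p generalizing c s with
  | zero =>
    have h1 : ∀ v : V, io v (d (0 + 1) (d 0 c)) = 0 := by
      intro v
      rw [io_d]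
      funext t
      rw [Pi.sub_apply, Pi.zero_apply, sub_eq_zero]
      have h2 := io_d_zero (t 0) (io v (d 0 c)) (sh 1 t)
      rw [cs_sh] at h2
      rw [h2]
      have h3 : ∀ w : ℕ → V, io v (d 0 c) w = c w - c (cs v (sh 1 w)) := fun w => io_d_zero v c w
      rw [h3, h3]
      have h4 := io_d_zero (t 0) c (sh 1 t)
      rw [cs_sh] at h4
      rw [h4]
      have h5 : c (cs v (sh 1 (sh 1 t))) = c (cs v (sh 1 (cs (t 0) (sh 1 (sh 1 t))))) :=
        hc _ _ fun i hi => by
          obtain rfl : i = 0 := by omega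
          rfl
      rw [h5]
      ring
    have h2 := congrFun (h1 (s 0)) (sh 1 s)
    rw [io, cs_sh] at h2
    exact h2
  | succ p ih =>
    have h1 : ∀ v : V, io v (d (p + 1 + 1) (d (p + 1) c)) = 0 := by
      intro v
      rw [io_d, io_d, d_sub, sub_sub_cancel]
      funext t
      exact ih (Dep_io hc) t
    have h2 := congrFun (h1 (s 0)) (sh 1 s)
    rw [io, cs_sh] at h2
    exact h2

/-- vanishing on the sequences with two equal consecutive entries -/
def Dg (p : ℕ) (u : K V F) : Prop := ∀ s : ℕ → V, (∃ i < p, s i = s (i + 1)) → u s = 0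

theorem Dg.d {p : ℕ} {u : K V F} (hu : Dg p u) : Dg (p + 1) (d p u) := by
  rintro s ⟨i, hi, he⟩
  unfold H21.TU.d
  have h0 : ∀ k ∈ Finset.range (p + 2), k ≠ i → k ≠ i + 1 → (-1 : F) ^ k * u (del k s) = 0 := by
    intro k hk h1 h2
    rw [Finset.mem_range] at hk
    rw [hu, mul_zero]
    rcases Nat.lt_or_ge k i with h3 | h3
    · refine ⟨i - 1, by omega, ?_⟩
      simp only [del]
      rw [if_neg (by omega), if_neg (by omega)]
      rw [show i - 1 + 1 = i by omega]
      exact he
    · refine ⟨i, by omega, ?_⟩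
      simp only [del]
      rw [if_pos (by omega), if_pos (by omega)]
      exact he
  have h1 : del i s = del (i + 1) s := by
    funext j
    simp only [del]
    rcases Nat.lt_trichotomy j i with h | h | h
    · rw [if_pos h, if_pos (by omega)]
    · subst h
      rw [if_neg (lt_irrefl _), if_pos (by omega)]
      exact he.symm
    · rw [if_neg (by omega), if_neg (by omega)]
  have h2 : ∑ k ∈ Finset.range (p + 2), (-1 : F) ^ k * u (del k s) =
      ∑ k ∈ ({i, i + 1} : Finset ℕ), (-1 : F) ^ k * u (del k s) := by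
    symm
    refine Finset.sum_subset (fun k hk => ?_) fun k hk hk' => ?_
    · rw [Finset.mem_insert, Finset.mem_singleton] at hk
      rw [Finset.mem_range]
      omega
    · rw [Finset.mem_insert, Finset.mem_singleton, not_or] at hk'
      exact h0 k hk hk'.1 hk'.2
  rw [h2, Finset.sum_pair (by omega), h1, pow_succ]
  ring

theorem Dg.pr (g g' : V → W) {p : ℕ} {u : K W F} (hu : Dg (p + 1) u) : Dg p (pr g g' p u) := by
  rintro s ⟨j, hj, he⟩
  refine pr_zero' g g' p fun i _ => hu _ ?_
  by_cases h : j + 1 ≤ i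
  · refine ⟨j, by omega, ?_⟩
    simp only [mx]
    rw [if_pos (by omega), if_pos h, he]
  · refine ⟨j + 1, by omega, ?_⟩
    have h1 : mx g g' i s (j + 1) = g' (s j) := by
      simp only [mx]
      rw [if_neg h, Nat.add_sub_cancel]
    have h2 : mx g g' i s (j + 1 + 1) = g' (s (j + 1)) := by
      simp only [mx]
      rw [if_neg (by omega), Nat.add_sub_cancel]
    rw [h1, h2, he]

/-- only the first term of the prism -/
theorem pr_first (g g' : V → W) (p : ℕ) {u : K W F} {s : ℕ → V}
    (h : ∀ i, 1 ≤ i → i ≤ p → u (mx g g' i s) = 0) :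
    pr g g' p u s = u (cs (g (s 0)) (fun j => g' (s j))) := by
  cases p with
  | zero => rfl
  | succ p =>
    show u _ - pr g g' p (io (g (s 0)) u) (sh 1 s) = _
    rw [pr_zero', sub_zero]
    intro i hi
    have h1 := h (i + 1) (by omega) (by omega)
    rw [mx_succ] at h1
    exact h1

theorem pr_nat {V' W' : Type*} {g g' : V → W} {G G' : V' → W'} {φ : V → V'} {ψ : W → W'}
    (h : ∀ v, G (φ v) = ψ (g v)) (h' : ∀ v, G' (φ v) = ψ (g' v)) (p : ℕ) (u : K W' F)
    (s : ℕ → V) : pr G G' p u (fun j => φ (s j)) = pr g g' p (pb ψ u) s := by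
  induction p generalizing u s with
  | zero =>
    show u (cs (G (φ (s 0))) (fun j => G' (φ (s j)))) = u (fun j => ψ (cs (g (s 0)) _ j))
    rw [comp_cs, h]
    simp only [h']
  | succ p ih =>
    have h1 : pr G G' (p + 1) u (fun j => φ (s j)) =
        u (cs (G (φ (s 0))) (fun j => G' (φ (s j)))) -
          pr G G' p (io (G (φ (s 0))) u) (fun j => φ (sh 1 s j)) := rfl
    have h2 : pr g g' (p + 1) (pb ψ u) s = u (fun j => ψ (cs (g (s 0)) (fun j => g' (s j)) j)) -
        pr g g' p (io (g (s 0)) (pb ψ u)) (sh 1 s) := rfl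
    have h3 : io (g (s 0)) (pb ψ u) = pb ψ (io (G (φ (s 0))) u) := by
      funext t
      show u (fun j => ψ (cs (g (s 0)) t j)) = u (cs (G (φ (s 0))) (fun j => ψ (t j)))
      rw [comp_cs, h]
    rw [h1, h2, h3, ih, comp_cs, h]
    simp only [h']

theorem pr_homotopy0 (g g' : V → W) {c : K W F} (hc : Dep 0 c) (s : ℕ → V) :
    pr g g' 0 (d 0 c) s = c (fun j => g' (s j)) - c (fun j => g (s j)) := by
  show d 0 c (cs (g (s 0)) (fun j => g' (s j))) = _
  rw [io_d_zero]
  congr 1
  refine hc _ _ fun i hi => ?_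
  obtain rfl : i = 0 := by omega
  rfl

end gen

variable {ι F : Type*} [Field F]

/-- clipping -/
def dn (a : ι → ℤ) (c : ℕ) (v : ι → ℤ) : ι → ℤ := fun i => min (v i) (a i + c)

/-- contraction of the box above `a` -/
def hh (N p : ℕ) (a : ι → ℤ) (u : K (ι → ℤ) F) : K (ι → ℤ) F := fun s =>
  ∑ c ∈ Finset.range N, pr (dn a c) (dn a (c + 1)) p u s

/-- coordinatewise minimum of the first entries -/
def mn : ℕ → (ℕ → ι → ℤ) → ι → ℤ
  | 0, s => s 0
  | p + 1, s => fun i => min (mn p s i) (s (p + 1) i)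

/-- extension to all sequences -/
def E (N : ℕ) : ℕ → K (ι → ℤ) F → K (ι → ℤ) F
  | 0, u => u
  | p + 1, u => fun s => d p (E N p (hh N p (mn (p + 1) s) u)) s

/-! ### the minimum -/

omit [Field F] in
theorem mn_le (p : ℕ) (s : ℕ → ι → ℤ) {j : ℕ} (hj : j ≤ p) : mn p s ≤ s j := by
  induction p with
  | zero =>
    obtain rfl : j = 0 := by omega
    exact le_rfl
  | succ p ih =>
    intro i
    show min (mn p s i) (s (p + 1) i) ≤ s j i
    rcases Nat.lt_succ_iff_lt_or_eq.1 (Nat.lt_succ_of_le hj) with h | h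
    · exact (min_le_left _ _).trans (ih (by omega) i)
    · rw [h]
      exact min_le_right _ _

omit [Field F] in
theorem le_mn (p : ℕ) {s : ℕ → ι → ℤ} {a : ι → ℤ} (h : ∀ j ≤ p, a ≤ s j) : a ≤ mn p s := by
  induction p with
  | zero => exact h 0 le_rfl
  | succ p ih =>
    intro i
    exact le_min (ih (fun j hj => h j (by omega)) i) (h (p + 1) le_rfl i)

omit [Field F] in
theorem mn_congr (p : ℕ) {s t : ℕ → ι → ℤ} (h : ∀ j ≤ p, s j = t j) : mn p s = mn p t := by
  induction p with
  | zero => exact h 0 le_rfl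
  | succ p ih =>
    funext i
    show min (mn p s i) (s (p + 1) i) = min (mn p t i) (t (p + 1) i)
    rw [ih fun j hj => h j (by omega), h (p + 1) le_rfl]

omit [Field F] in
theorem mn_add (p : ℕ) (s : ℕ → ι → ℤ) (l : ι → ℤ) : mn p (fun j => s j + l) = mn p s + l := by
  induction p with
  | zero => rfl
  | succ p ih =>
    funext i
    show min (mn p (fun j => s j + l) i) (s (p + 1) i + l i) = min (mn p s i) (s (p + 1) i) + l i
    rw [ih, Pi.add_apply, min_add_add_right]

omit [Field F] in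
theorem mn_ex (p : ℕ) (s : ℕ → ι → ℤ) (i : ι) : ∃ j ≤ p, mn p s i = s j i := by
  induction p with
  | zero => exact ⟨0, le_rfl, rfl⟩
  | succ p ih =>
    obtain ⟨j, hj, h⟩ := ih
    rcases min_choice (mn p s i) (s (p + 1) i) with h1 | h1
    · exact ⟨j, by omega, h1.trans h⟩
    · exact ⟨p + 1, le_rfl, h1⟩

/-! ### the contraction -/

theorem Dep_hh {N p : ℕ} (a : ι → ℤ) {u : K (ι → ℤ) F} (hu : Dep (p + 1) u) :
    Dep p (hh N p a u) := by
  intro s t hst
  exact Finset.sum_congr rfl fun c _ => Dep_pr _ _ hu s t hst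

theorem Dg_hh {N p : ℕ} (a : ι → ℤ) {u : K (ι → ℤ) F} (hu : Dg (p + 1) u) :
    Dg p (hh N p a u) := fun s hs => Finset.sum_eq_zero fun _ _ => Dg.pr _ _ hu s hs

theorem hh_sub (N p : ℕ) (a : ι → ℤ) (u u' : K (ι → ℤ) F) :
    hh N p a (u - u') = hh N p a u - hh N p a u' := by
  funext s
  rw [Pi.sub_apply]
  unfold hh
  rw [← Finset.sum_sub_distrib]
  exact Finset.sum_congr rfl fun c _ => by rw [pr_sub, Pi.sub_apply]

omit [Field F] in
theorem Ch_mx {p : ℕ} {s : ℕ → ι → ℤ} (hs : Ch p s) (a : ι → ℤ) (c : ℕ) {i : ℕ} (hi : i ≤ p) :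
    Ch (p + 1) (mx (dn a c) (dn a (c + 1)) i s) := by
  intro j k hjk hk
  have hc : ((c + 1 : ℕ) : ℤ) = c + 1 := by push_cast; rfl
  refine ⟨fun x => ?_, fun x => ?_⟩
  · simp only [mx]
    split_ifs with h1 h2 h2
    · have h3 : s j x ≤ s k x := (hs j k hjk (by omega)).1 x
      simp only [dn]
      omega
    · have h3 : s j x ≤ s (k - 1) x := (hs j (k - 1) (by omega) (by omega)).1 x
      simp only [dn, hc]
      omega
    · omega
    · have h3 : s (j - 1) x ≤ s (k - 1) x := (hs (j - 1) (k - 1) (by omega) (by omega)).1 x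
      simp only [dn]
      omega
  · simp only [mx, Pi.add_apply, Pi.one_apply]
    split_ifs with h1 h2 h2
    · have h3 : s k x ≤ s j x + 1 := (hs j k hjk (by omega)).2 x
      simp only [dn]
      omega
    · omega
    · have h3 : s (k - 1) x ≤ s j x + 1 := (hs j (k - 1) (by omega) (by omega)).2 x
      simp only [dn, hc]
      omega
    · have h3 : s (k - 1) x ≤ s (j - 1) x + 1 :=
        (hs (j - 1) (k - 1) (by omega) (by omega)).2 x
      simp only [dn]
      omega

/-- agreement on the chains in a box -/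
def Ag (p : ℕ) (lo hi : ι → ℤ) (u u' : K (ι → ℤ) F) : Prop :=
  ∀ t : ℕ → ι → ℤ, Ch p t → (∀ i ≤ p, lo ≤ t i ∧ t i ≤ hi) → u t = u' t

theorem Ag.hh {N p : ℕ} {lo hi a : ι → ℤ} {u u' : K (ι → ℤ) F} (h : Ag (p + 1) lo hi u u')
    (ha : lo ≤ a) : Ag p a hi (hh N p a u) (hh N p a u') := by
  intro t ht hb
  refine Finset.sum_congr rfl fun c _ => pr_congr _ _ p fun i hi' => ?_
  refine h _ (Ch_mx ht a c hi') fun j hj => ?_
  simp only [mx]
  split_ifs with h1
  · obtain ⟨h2, h3⟩ := hb j (by omega)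
    refine ⟨fun x => (ha x).trans ?_, fun x => (min_le_left _ _).trans (h3 x)⟩
    have h4 : a x ≤ t j x := h2 x
    simp only [dn]
    omega
  · obtain ⟨h2, h3⟩ := hb (j - 1) (by omega)
    refine ⟨fun x => (ha x).trans ?_, fun x => (min_le_left _ _).trans (h3 x)⟩
    have h4 : a x ≤ t (j - 1) x := h2 x
    simp only [dn]
    omega

theorem d_sum {V : Type*} (p : ℕ) {α : Type*} (S : Finset α) (f : α → K V F) (s : ℕ → V) :
    d p (fun t => ∑ c ∈ S, f c t) s = ∑ c ∈ S, d p (f c) s := by
  unfold d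
  rw [Finset.sum_comm]
  exact Finset.sum_congr rfl fun i _ => by rw [Finset.mul_sum]

theorem hh_homotopy (N p : ℕ) (a : ι → ℤ) {u : K (ι → ℤ) F} (hu : Dep (p + 1) u)
    (s : ℕ → ι → ℤ) : d p (hh N p a u) s + hh N (p + 1) a (d (p + 1) u) s =
      u (fun j => dn a N (s j)) - u (fun j => dn a 0 (s j)) := by
  have h1 : d p (hh N p a u) s = ∑ c ∈ Finset.range N, d p (pr (dn a c) (dn a (c + 1)) p u) s :=
    d_sum p _ _ s
  rw [h1]
  unfold hh
  rw [← Finset.sum_add_distrib]
  rw [← Finset.sum_range_sub (fun c => u (fun j => dn a c (s j)))]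
  exact Finset.sum_congr rfl fun c _ => pr_homotopy _ _ p hu s

theorem hh_homotopy0 (N : ℕ) (a : ι → ℤ) {u : K (ι → ℤ) F} (hu : Dep 0 u)
    (s : ℕ → ι → ℤ) : hh N 0 a (d 0 u) s =
      u (fun j => dn a N (s j)) - u (fun j => dn a 0 (s j)) := by
  unfold hh
  rw [← Finset.sum_range_sub (fun c => u (fun j => dn a c (s j)))]
  exact Finset.sum_congr rfl fun c _ => pr_homotopy0 _ _ hu s

omit [Field F] in
theorem dn_top {a v : ι → ℤ} {N : ℕ} (h : ∀ i, v i ≤ a i + N) : dn a N v = v := by
  funext i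
  exact min_eq_left (h i)

omit [Field F] in
theorem dn_bot {a v : ι → ℤ} (h : a ≤ v) : dn a 0 v = a := by
  funext i
  have h1 : a i ≤ v i := h i
  simp only [dn]
  omega

/-- the contraction on one simplex -/
theorem hh_kuhn {N p : ℕ} (hN : 1 ≤ N) {a : ι → ℤ} {u : K (ι → ℤ) F} (hu : Dep (p + 1) u)
    (hg : Dg (p + 1) u) {t : ℕ → ι → ℤ} (ht : ∀ i ≤ p, a ≤ t i ∧ t i ≤ a + 1) :
    hh N p a u t = u (cs a t) := by
  obtain ⟨M, rfl⟩ : ∃ M, N = M + 1 := ⟨N - 1, by omega⟩
  unfold hh
  rw [Finset.sum_range_succ', Finset.sum_eq_zero, zero_add]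
  · rw [pr_first]
    · refine hu _ _ fun i hi => ?_
      cases i with
      | zero =>
        show dn a 0 (t 0) = a
        exact dn_bot (ht 0 (Nat.zero_le _)).1
      | succ i =>
        show dn a (0 + 1) (t i) = t i
        refine dn_top fun x => ?_
        have := (ht i (by omega)).2 x
        simpa using this
    · intro i h1 hi
      refine hg _ ⟨0, by omega, ?_⟩
      simp only [mx]
      rw [if_pos (by omega), if_pos (by omega), dn_bot (ht 0 (by omega)).1,
        dn_bot (ht (0 + 1) (by omega)).1]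
  · intro c _
    refine pr_zero' _ _ p fun i hi => hg _ ⟨i, by omega, ?_⟩
    simp only [mx]
    rw [if_pos le_rfl, if_neg (by omega), Nat.add_sub_cancel]
    have h1 : ∀ x, t i x ≤ a x + 1 := fun x => (ht i hi).2 x
    rw [dn_top, dn_top]
    · intro x
      have := h1 x
      push_cast
      omega
    · intro x
      have := h1 x
      push_cast
      omega

/-! ### the extension -/

theorem E_sub (N p : ℕ) (u u' : K (ι → ℤ) F) : E N p (u - u') = E N p u - E N p u' := by
  induction p generalizing u u' with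
  | zero => rfl
  | succ p ih =>
    funext s
    show d p (E N p (hh N p _ (u - u'))) s = d p _ s - d p _ s
    rw [hh_sub, ih, d_sub]
    rfl

theorem E_zero (N p : ℕ) : E N p (0 : K (ι → ℤ) F) = 0 := by
  have h := E_sub N p (0 : K (ι → ℤ) F) 0
  rwa [sub_zero, sub_self] at h

theorem Dep_E (N p : ℕ) {u : K (ι → ℤ) F} (hu : Dep p u) : Dep p (E N p u) := by
  induction p generalizing u with
  | zero => exact hu
  | succ p ih =>
    intro s t hst
    show d p (E N p (hh N p (mn (p + 1) s) u)) s = d p (E N p (hh N p (mn (p + 1) t) u)) t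
    rw [mn_congr (p + 1) hst]
    exact (ih (Dep_hh _ hu)).d s t hst

omit [Field F] in
theorem del_mem {p : ℕ} {P : (ι → ℤ) → Prop} {s : ℕ → ι → ℤ} (h : ∀ i ≤ p + 1, P (s i)) (k : ℕ) :
    ∀ i ≤ p, P (del k s i) := by
  intro i hi
  simp only [del]
  split_ifs
  · exact h i (by omega)
  · exact h (i + 1) (by omega)

/-- the extension is local -/
theorem E_congr (N p : ℕ) {lo hi : ι → ℤ} {u u' : K (ι → ℤ) F} (hA : Ag p lo hi u u')
    {s : ℕ → ι → ℤ} (hs : ∀ i ≤ p, lo ≤ s i ∧ s i ≤ hi) : E N p u s = E N p u' s := by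
  induction p generalizing lo u u' s with
  | zero =>
    refine hA s (fun i j hij hj => ?_) hs
    obtain rfl : i = j := by omega
    exact ⟨le_rfl, fun x => by simp⟩
  | succ p ih =>
    show d p (E N p (hh N p _ u)) s = d p (E N p (hh N p _ u')) s
    refine d_congr p fun k _ => ?_
    refine ih (hA.hh (le_mn (p + 1) fun j hj => (hs j hj).1)) ?_
    exact del_mem (P := fun v => mn (p + 1) s ≤ v ∧ v ≤ hi)
      (fun i hi => ⟨mn_le (p + 1) s hi, (hs i hi).2⟩) k

omit [Field F] in
theorem Ch_del {p : ℕ} {s : ℕ → ι → ℤ} (h : Ch (p + 1) s) (i : ℕ) : Ch p (del i s) := by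
  intro a b hab hb
  simp only [del]
  split_ifs with h1 h2 h2
  · exact h a b hab (by omega)
  · exact h a (b + 1) (by omega) (by omega)
  · exact absurd (lt_of_le_of_lt hab h2) h1
  · exact h (a + 1) (b + 1) (by omega) (by omega)

/-- the extension on Kuhn chains -/
theorem E_kuhn {N : ℕ} (hN : 1 ≤ N) (p : ℕ) {u : K (ι → ℤ) F} (hu : Dep p u) (hg : Dg p u)
    {s : ℕ → ι → ℤ} (hs : Ch p s) : E N p u s = u s := by
  induction p generalizing u s with
  | zero => rfl
  | succ p ih =>
    have ha : mn (p + 1) s = s 0 := le_antisymm (mn_le _ _ (Nat.zero_le _))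
      (le_mn _ fun j hj => (hs 0 j (Nat.zero_le _) hj).1)
    show d p (E N p (hh N p (mn (p + 1) s) u)) s = u s
    rw [ha]
    have h1 : ∀ k ≤ p + 1, E N p (hh N p (s 0) u) (del k s) = u (cs (s 0) (del k s)) := by
      intro k _
      rw [ih (Dep_hh _ hu) (Dg_hh _ hg) (Ch_del hs k)]
      refine hh_kuhn hN hu hg ?_
      exact del_mem (P := fun v => s 0 ≤ v ∧ v ≤ s 0 + 1)
        (fun i hi => hs 0 i (Nat.zero_le _) hi) k
    unfold d
    rw [Finset.sum_range_succ', Finset.sum_eq_zero, zero_add, h1 0 (by omega), del_zero, cs_sh,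
      pow_zero, one_mul]
    intro k hk
    rw [Finset.mem_range] at hk
    rw [h1 (k + 1) (by omega), hg, mul_zero]
    exact ⟨0, by omega, rfl⟩

/-- the extension commutes with the coboundary -/
theorem E_d (N p : ℕ) {u : K (ι → ℤ) F} (hu : Dep p u) (hg : Dg p u) {s : ℕ → ι → ℤ}
    (hb : ∀ i ≤ p + 1, ∀ j ≤ p + 1, ∀ x, s i x ≤ s j x + N) :
    E N (p + 1) (d p u) s = d p (E N p u) s := by
  induction p generalizing u s with
  | zero =>
    set a := mn (0 + 1) s with ha
    show d 0 (hh N 0 a (d 0 u)) s = d 0 u s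
    have h1 : ∀ k ≤ 0 + 1, hh N 0 a (d 0 u) (del k s) =
        (u - (fun _ => u (fun _ => a) : K (ι → ℤ) F)) (del k s) := by
      intro k _
      rw [hh_homotopy0 N a hu, Pi.sub_apply]
      congr 1
      · refine hu _ _ fun i hi => ?_
        refine del_mem (p := 0) (P := fun v => dn a N v = v) (fun i hi => dn_top fun x => ?_) k i hi
        obtain ⟨j, hj, h⟩ := mn_ex (0 + 1) s x
        rw [ha, h]
        exact hb i hi j hj x
      · refine hu _ _ fun i hi => ?_
        exact del_mem (p := 0) (P := fun v => dn a 0 v = a)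
          (fun i hi => dn_bot (mn_le _ s hi)) k i hi
    rw [d_congr 0 h1, d_sub]
    rw [Pi.sub_apply]
    have h2 : d 0 (fun _ => u (fun _ => a)) s = 0 := by
      unfold d
      rw [Finset.sum_range_succ, Finset.sum_range_one]
      ring
    rw [h2, sub_zero]
  | succ p ih =>
    set a := mn (p + 1 + 1) s with ha
    have hbox : ∀ i ≤ p + 1 + 1, a ≤ s i ∧ s i ≤ a + (fun _ => (N : ℤ)) := by
      intro i hi
      refine ⟨mn_le _ s hi, fun x => ?_⟩
      obtain ⟨j, hj, h⟩ := mn_ex (p + 1 + 1) s x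
      rw [Pi.add_apply, ha, h]
      exact hb i hi j hj x
    show d (p + 1) (E N (p + 1) (hh N (p + 1) a (d (p + 1) u))) s = d (p + 1) (E N (p + 1) u) s
    have hA : Ag (p + 1) a (a + fun _ => (N : ℤ)) (hh N (p + 1) a (d (p + 1) u))
        (u - d p (hh N p a u)) := by
      intro t ht hbt
      have h1 := hh_homotopy N p a hu t
      have h2 : u (fun j => dn a N (t j)) = u t := hu _ _ fun i hi => dn_top fun x => (hbt i hi).2 x
      have h3 : u (fun j => dn a 0 (t j)) = 0 := by
        refine hg _ ⟨0, by omega, ?_⟩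
        show dn a 0 (t 0) = dn a 0 (t (0 + 1))
        rw [dn_bot (hbt 0 (by omega)).1, dn_bot (hbt (0 + 1) (by omega)).1]
      rw [h2, h3, sub_zero] at h1
      rw [Pi.sub_apply, ← h1]
      ring
    have h1 : ∀ k ≤ p + 1 + 1, E N (p + 1) (hh N (p + 1) a (d (p + 1) u)) (del k s) =
        (E N (p + 1) u - d p (E N p (hh N p a u))) (del k s) := by
      intro k _
      rw [E_congr N (p + 1) hA (del_mem (P := fun v => a ≤ v ∧ v ≤ a + fun _ => (N : ℤ)) hbox k),
        E_sub, Pi.sub_apply, Pi.sub_apply]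
      congr 1
      refine ih (Dep_hh _ hu) (Dg_hh _ hg) fun i hi j hj x => ?_
      simp only [del]
      split_ifs
      · exact hb i (by omega) j (by omega) x
      · exact hb i (by omega) (j + 1) (by omega) x
      · exact hb (i + 1) (by omega) j (by omega) x
      · exact hb (i + 1) (by omega) (j + 1) (by omega) x
    rw [d_congr (p + 1) h1, d_sub, Pi.sub_apply, d_d p (Dep_E N p (Dep_hh _ hu)), sub_zero]

omit [Field F] in
theorem del_map {V W : Type*} (φ : V → W) (k : ℕ) (s : ℕ → V) :
    del k (fun j => φ (s j)) = fun j => φ (del k s j) := by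
  funext j
  simp only [del]
  split_ifs <;> rfl

/-- translations -/
theorem E_add (N p : ℕ) (u : K (ι → ℤ) F) (s : ℕ → ι → ℤ) (l : ι → ℤ) :
    E N p u (fun j => s j + l) = E N p (pb (fun v => v + l) u) s := by
  induction p generalizing u s with
  | zero => rfl
  | succ p ih =>
    show d p (E N p (hh N p (mn (p + 1) fun j => s j + l) u)) (fun j => s j + l) =
      d p (E N p (hh N p (mn (p + 1) s) (pb (fun v => v + l) u))) s
    rw [mn_add]
    set a := mn (p + 1) s
    have h1 : pb (fun v => v + l) (hh N p (a + l) u) = hh N p a (pb (fun v => v + l) u) := by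
      funext t
      show ∑ c ∈ Finset.range N, pr (dn (a + l) c) (dn (a + l) (c + 1)) p u (fun j => t j + l) =
        ∑ c ∈ Finset.range N, pr (dn a c) (dn a (c + 1)) p (pb (fun v => v + l) u) t
      refine Finset.sum_congr rfl fun c _ => ?_
      have h2 : ∀ (c : ℕ) (v : ι → ℤ), dn (a + l) c (v + l) = dn a c v + l := by
        intro c v
        funext x
        simp only [dn, Pi.add_apply]
        omega
      exact pr_nat (φ := fun v => v + l) (ψ := fun v => v + l) (h2 c) (h2 (c + 1)) p u t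
    unfold d
    refine Finset.sum_congr rfl fun k _ => ?_
    rw [del_map (fun v => v + l), ih, h1]

end Pool.Agent.H65.FU
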