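import Pool.Agent.H21.TU.Sq

/-!
# Project FULL: the prism homotopy for cochains on sequences of vertices
-/

set_option autoImplicit false

namespace Pool.Agent.H65.FU

open Pool.Agent.H21.TU

variable {V W F : Type*} [Field F]

/-- put `v` in front -/
def cs (v : V) (t : ℕ → V) : ℕ → V := fun j => match j with
  | 0 => v
  | j + 1 => t j

theorem cs_zero (v : V) (t : ℕ → V) : cs v t 0 = v := rfl

theorem cs_succ (v : V) (t : ℕ → V) (j : ℕ) : cs v t (j + 1) = t j := rfl

theorem sh_cs (v : V) (t : ℕ → V) : sh 1 (cs v t) = t := rfl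

theorem cs_sh (s : ℕ → V) : cs (s 0) (sh 1 s) = s := by
  funext j
  cases j with
  | zero => rfl
  | succ j => rfl

theorem comp_cs (g : V → W) (v : V) (t : ℕ → V) : (fun j => g (cs v t j)) =
    cs (g v) (fun j => g (t j)) := by
  funext j
  cases j with
  | zero => rfl
  | succ j => rfl

theorem del_cs_zero (v : V) (t : ℕ → V) : del 0 (cs v t) = t := by
  rw [del_zero, sh_cs]

theorem del_cs_succ (i : ℕ) (v : V) (t : ℕ → V) : del (i + 1) (cs v t) = cs v (del i t) := by
  funext j
  cases j with
  | zero => simp [del, cs]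
  | succ j =>
    show (if j + 1 < i + 1 then cs v t (j + 1) else cs v t (j + 1 + 1)) = del i t j
    simp only [del, cs_succ, Nat.add_lt_add_iff_right]

/-- the cochain with fixed first entry -/
def io (v : V) (c : K V F) : K V F := fun t => c (cs v t)

theorem io_sub (v : V) (a b : K V F) : io v (a - b) = io v a - io v b := rfl

theorem io_zero (v : V) : io v (0 : K V F) = 0 := rfl

/-- the coboundary and the first entry -/
theorem io_d (p : ℕ) (v : V) (c : K V F) : io v (d (p + 1) c) = c - d p (io v c) := by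
  funext t
  show d (p + 1) c (cs v t) = c t - d p (io v c) t
  unfold d
  rw [show p + 1 + 2 = (p + 2) + 1 from rfl, Finset.sum_range_succ', del_cs_zero, pow_zero,
    one_mul, sub_eq_add_neg, add_comm, ← Finset.sum_neg_distrib]
  congr 1
  refine Finset.sum_congr rfl fun i _ => ?_
  rw [del_cs_succ, pow_succ]
  show (-1) ^ i * -1 * c (cs v (del i t)) = -((-1) ^ i * c (cs v (del i t)))
  ring

theorem io_d_zero (v : V) (c : K V F) (t : ℕ → V) :
    d 0 c (cs v t) = c t - c (cs v (sh 1 t)) := by
  unfold d
  rw [Finset.sum_range_succ, Finset.sum_range_one, del_cs_zero, del_cs_succ, del_zero]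
  ring

theorem Dep_io {p : ℕ} {v : V} {c : K V F} (hc : Dep (p + 1) c) : Dep p (io v c) := by
  intro s t hst
  refine hc _ _ fun i hi => ?_
  cases i with
  | zero => rfl
  | succ i => exact hst i (by omega)

theorem d_sub (p : ℕ) (a b : K V F) : d p (a - b) = d p a - d p b := by
  funext s
  unfold d
  rw [Pi.sub_apply, ← Finset.sum_sub_distrib]
  exact Finset.sum_congr rfl fun i _ => by rw [Pi.sub_apply]; ring

theorem d_add' (p : ℕ) (a b : K V F) : d p (a + b) = d p a + d p b := by
  funext s
  unfold d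
  rw [Pi.add_apply, ← Finset.sum_add_distrib]
  exact Finset.sum_congr rfl fun i _ => by rw [Pi.add_apply]; ring

/-- the mixed sequence `g s₀, …, g s_i, g' s_i, g' s_{i+1}, …` -/
def mx (g g' : V → W) (i : ℕ) (s : ℕ → V) : ℕ → W := fun j =>
  if j ≤ i then g (s j) else g' (s (j - 1))

theorem mx_zero (g g' : V → W) (s : ℕ → V) : mx g g' 0 s = cs (g (s 0)) (fun j => g' (s j)) := by
  funext j
  cases j with
  | zero => simp [mx, cs]
  | succ j => simp [mx, cs]

theorem mx_succ (g g' : V → W) (i : ℕ) (s : ℕ → V) :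
    mx g g' (i + 1) s = cs (g (s 0)) (mx g g' i (sh 1 s)) := by
  funext j
  cases j with
  | zero => simp [mx, cs]
  | succ j =>
    show (if j + 1 ≤ i + 1 then g (s (j + 1)) else g' (s (j + 1 - 1))) =
      if j ≤ i then g (s (j + 1)) else g' (s (j - 1 + 1))
    by_cases h : j ≤ i
    · rw [if_pos h, if_pos (by omega)]
    · rw [if_neg h, if_neg (by omega)]
      congr 2
      omega

/-- the prism operator -/
def pr (g g' : V → W) : ℕ → K W F → K V F
  | 0, c => fun s => c (cs (g (s 0)) (fun j => g' (s j)))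
  | p + 1, c => fun s => c (cs (g (s 0)) (fun j => g' (s j))) -
      pr g g' p (io (g (s 0)) c) (sh 1 s)

theorem pr_sub (g g' : V → W) (p : ℕ) (a b : K W F) :
    pr g g' p (a - b) = pr g g' p a - pr g g' p b := by
  induction p generalizing a b with
  | zero => rfl
  | succ p ih =>
    funext s
    show (a - b) _ - pr g g' p (io (g (s 0)) (a - b)) (sh 1 s) = _
    rw [io_sub, ih]
    show a _ - b _ - (pr g g' p (io (g (s 0)) a) (sh 1 s) - pr g g' p (io (g (s 0)) b) (sh 1 s)) =
      (a _ - pr g g' p (io (g (s 0)) a) (sh 1 s)) - (b _ - pr g g' p (io (g (s 0)) b) (sh 1 s))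
    ring

theorem pr_zero' (g g' : V → W) (p : ℕ) {c : K W F} {s : ℕ → V}
    (h : ∀ i ≤ p, c (mx g g' i s) = 0) : pr g g' p c s = 0 := by
  induction p generalizing c s with
  | zero =>
    have := h 0 le_rfl
    rwa [mx_zero] at this
  | succ p ih =>
    show c (cs (g (s 0)) (fun j => g' (s j))) - pr g g' p (io (g (s 0)) c) (sh 1 s) = 0
    have h0 := h 0 (Nat.zero_le _)
    rw [mx_zero] at h0
    rw [h0, ih, sub_zero]
    intro i hi
    have h1 := h (i + 1) (by omega)
    rw [mx_succ] at h1
    exact h1

theorem pr_congr (g g' : V → W) (p : ℕ) {c c' : K W F} {s : ℕ → V}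
    (h : ∀ i ≤ p, c (mx g g' i s) = c' (mx g g' i s)) : pr g g' p c s = pr g g' p c' s := by
  have h1 := pr_zero' g g' p (c := c - c') (s := s) fun i hi => by
    rw [Pi.sub_apply, h i hi, sub_self]
  rw [pr_sub, Pi.sub_apply, sub_eq_zero] at h1
  exact h1

theorem Dep_pr (g g' : V → W) {p : ℕ} {c : K W F} (hc : Dep (p + 1) c) :
    Dep p (pr g g' p c) := by
  induction p generalizing c with
  | zero =>
    intro s t hst
    refine hc _ _ fun i hi => ?_
    cases i with
    | zero => show g (s 0) = g (t 0); rw [hst 0 le_rfl]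
    | succ i =>
      show g' (s i) = g' (t i)
      rw [hst i (by omega)]
  | succ p ih =>
    intro s t hst
    show c _ - pr g g' p (io (g (s 0)) c) (sh 1 s) = c _ - pr g g' p (io (g (t 0)) c) (sh 1 t)
    rw [hst 0 (Nat.zero_le _)]
    congr 1
    · refine hc _ _ fun i hi => ?_
      cases i with
      | zero => rfl
      | succ i =>
        show g' (s i) = g' (t i)
        rw [hst i (by omega)]
    · exact ih (Dep_io hc) _ _ fun i hi => hst (i + 1) (by omega)

/-- **The prism homotopy.** -/
theorem pr_homotopy (g g' : V → W) (p : ℕ) {c : K W F} (hc : Dep (p + 1) c) (s : ℕ → V) :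
    d p (pr g g' p c) s + pr g g' (p + 1) (d (p + 1) c) s =
      c (fun j => g' (s j)) - c (fun j => g (s j)) := by
  induction p generalizing c s with
  | zero =>
    set v := g (s 0) with hv
    have e1 : d 0 (pr g g' 0 c) s = c (cs (g (s 1)) (fun j => g' (s (j + 1)))) -
        c (cs v (fun j => g' (s j))) := by
      have h1 := io_d_zero (s 0) (pr g g' 0 c) (sh 1 s)
      rw [cs_sh] at h1
      rw [h1]
      congr 1
      show c _ = c _
      refine hc _ _ fun i hi => ?_
      rcases Nat.le_one_iff_eq_zero_or_eq_one.1 hi with rfl | rfl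
      · rfl
      · rfl
    have e2 : pr g g' (0 + 1) (d (0 + 1) c) s = d (0 + 1) c (cs v (fun j => g' (s j))) -
        pr g g' 0 (io v (d (0 + 1) c)) (sh 1 s) := rfl
    have e3 : d (0 + 1) c (cs v (fun j => g' (s j))) =
        c (fun j => g' (s j)) - d 0 (io v c) (fun j => g' (s j)) :=
      congrFun (io_d 0 v c) _
    have e4 : d 0 (io v c) (fun j => g' (s j)) =
        c (cs v (fun j => g' (s (j + 1)))) - c (cs v (fun j => g' (s j))) := by
      have h1 := io_d_zero (g' (s 0)) (io v c) (fun j => g' (s (j + 1)))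
      rw [← comp_cs g' (s 0) (fun j => s (j + 1))] at h1
      have h2 : cs (s 0) (fun j => s (j + 1)) = s := cs_sh s
      rw [h2] at h1
      rw [h1]
      congr 1
      show c _ = c _
      refine hc _ _ fun i hi => ?_
      rcases Nat.le_one_iff_eq_zero_or_eq_one.1 hi with rfl | rfl
      · rfl
      · rfl
    have e5 : pr g g' 0 (io v (d (0 + 1) c)) (sh 1 s) =
        c (cs (g (s 1)) (fun j => g' (s (j + 1)))) -
          d 0 (io v c) (cs (g (s 1)) (fun j => g' (s (j + 1)))) := by
      rw [io_d, pr_sub]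
      rfl
    have e6 : d 0 (io v c) (cs (g (s 1)) (fun j => g' (s (j + 1)))) =
        c (cs v (fun j => g' (s (j + 1)))) - c (fun j => g (s j)) := by
      rw [io_d_zero]
      congr 1
      show c _ = c _
      refine hc _ _ fun i hi => ?_
      rcases Nat.le_one_iff_eq_zero_or_eq_one.1 hi with rfl | rfl
      · rfl
      · rfl
    rw [e1, e2, e3, e4, e5, e6]
    ring
  | succ p ih =>
    set v := g (s 0) with hv
    -- the second term
    have e1 : pr g g' (p + 1 + 1) (d (p + 1 + 1) c) s =
        d (p + 1 + 1) c (cs v (fun j => g' (s j))) -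
          pr g g' (p + 1) (io v (d (p + 1 + 1) c)) (sh 1 s) := rfl
    have e2 : d (p + 1 + 1) c (cs v (fun j => g' (s j))) =
        c (fun j => g' (s j)) - d (p + 1) (io v c) (fun j => g' (s j)) :=
      congrFun (io_d (p + 1) v c) _
    rw [io_d, pr_sub, e2, Pi.sub_apply] at e1
    -- the first term
    have e3 : d (p + 1) (pr g g' (p + 1) c) s = pr g g' (p + 1) c (sh 1 s) -
        d p (io (s 0) (pr g g' (p + 1) c)) (sh 1 s) := by
      conv_lhs => rw [← cs_sh s]
      exact congrFun (io_d p (s 0) (pr g g' (p + 1) c)) (sh 1 s)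
    have e4 : io (s 0) (pr g g' (p + 1) c) =
        io (s 0) (pb g' (io v c)) - pr g g' p (io v c) := by
      funext t
      show c (cs (g (cs (s 0) t 0)) (fun j => g' (cs (s 0) t j))) -
        pr g g' p (io (g (cs (s 0) t 0)) c) (sh 1 (cs (s 0) t)) = _
      rfl
    have e5 : d p (io (s 0) (pb g' (io v c))) (sh 1 s) =
        pb g' (io v c) (sh 1 s) - d (p + 1) (pb g' (io v c)) s := by
      have h1 := congrFun (io_d p (s 0) (pb g' (io v c))) (sh 1 s)
      have h2 : io (s 0) (d (p + 1) (pb g' (io v c))) (sh 1 s) =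
          d (p + 1) (pb g' (io v c)) s := by
        show d (p + 1) (pb g' (io v c)) (cs (s 0) (sh 1 s)) = _
        rw [cs_sh]
      rw [h2, Pi.sub_apply] at h1
      rw [h1]
      ring
    rw [e4, d_sub, Pi.sub_apply, e5, d_pb] at e3
    have e6 := ih (Dep_io hc (v := v)) (sh 1 s)
    rw [e3, e1]
    have e7 : c (fun j => g (s j)) = io v c (fun j => g (sh 1 s j)) := by
      show _ = c (cs v (fun j => g (sh 1 s j)))
      congr 1
      funext j
      cases j with
      | zero => rfl
      | succ j => rfl
    rw [e7]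
    have e8 : pb g' (d (p + 1) (io v c)) s = d (p + 1) (io v c) (fun j => g' (s j)) := rfl
    have e9 : pb g' (io v c) (sh 1 s) = io v c (fun j => g' (sh 1 s j)) := rfl
    rw [e8, e9]
    linear_combination e6

end Pool.Agent.H65.FU
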