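import Pool.Agent.H65.FU.Ext
import Pool.Agent.H47.ST.Free

/-!
# Project FULL: the transfer lemma on one grid (block S2)
-/

set_option autoImplicit false

namespace Pool.Agent.H65.FU

open Pool.Agent.H21.TU
open Pool.Agent.H47.ST

/-- all entries of the mixed sequences are close -/
theorem mx_box {ι : Type*} {g g' : (ι → ℤ) → ι → ℤ} {κ : ℤ} {q : ℕ} {s : ℕ → ι → ℤ}
    (h1 : ∀ a ≤ q, ∀ b ≤ q, ∀ x, |g (s b) x - g (s a) x| ≤ κ)
    (h2 : ∀ a ≤ q, ∀ b ≤ q, ∀ x, |g' (s b) x - g' (s a) x| ≤ κ)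
    (h3 : ∀ a ≤ q, ∀ x, |g' (s a) x - g (s a) x| ≤ κ) {j : ℕ} (hj : j ≤ q) :
    ∀ a ≤ q + 1, ∀ b ≤ q + 1, ∀ x, |mx g g' j s b x - mx g g' j s a x| ≤ 2 * κ := by
  intro a ha b hb x
  have h0 : 0 ≤ κ := (abs_nonneg _).trans (h3 0 (Nat.zero_le _) x)
  simp only [mx]
  split_ifs with ha' hb' hb'
  · have := h1 a (by omega) b (by omega) x
    rw [abs_le] at this ⊢
    omega
  · have e1 := h1 (a - 1) (by omega) b (by omega) x
    have e2 := h3 (a - 1) (by omega) x
    rw [abs_le] at e1 e2 ⊢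
    omega
  · have e1 := h1 a (by omega) (b - 1) (by omega) x
    have e2 := h3 (b - 1) (by omega) x
    rw [abs_le] at e1 e2 ⊢
    omega
  · have := h2 (a - 1) (by omega) (b - 1) (by omega) x
    rw [abs_le] at this ⊢
    omega

variable {ι : Type*} [Fintype ι] [DecidableEq ι] {F : Type*} [Field F]

theorem Dg_hat (p : ℕ) (x : Co ι F) : Dg p (hat p x) := by
  classical
  rintro s ⟨i, hi, he⟩
  unfold hat
  rw [if_neg]
  rintro ⟨h, _⟩
  exact (h i hi).ne he

theorem Ch_Simp {p : ℕ} {t : ℕ → ι → ℤ} (h : Ch p t) :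
    Simp ((Finset.range (p + 1)).image t) := by
  intro v hv w hw
  obtain ⟨i, hi, rfl⟩ := Finset.mem_image.1 hv
  obtain ⟨j, hj, rfl⟩ := Finset.mem_image.1 hw
  rw [Finset.mem_range] at hi hj
  rcases le_total i j with h1 | h1
  · exact Or.inl (h i j h1 (by omega))
  · exact Or.inr (h j i h1 (by omega))

theorem hat_add {p : ℕ} {x : Co ι F} {l : ι → ℤ} (hx : ∀ σ, x (tr l σ) = x σ) (s : ℕ → ι → ℤ) :
    hat p x (fun j => s j + l) = hat p x s := by
  classical
  have e1 : (∀ i < p, s i + l < s (i + 1) + l) ↔ ∀ i < p, s i < s (i + 1) := by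
    simp only [add_lt_add_iff_right]
  have e2 : Ch p (fun j => s j + l) ↔ Ch p s := by
    unfold Ch
    refine forall_congr' fun i => forall_congr' fun j => forall_congr' fun _ =>
      forall_congr' fun _ => ?_
    rw [add_le_add_iff_right, add_right_comm, add_le_add_iff_right]
  have e3 : (Finset.range (p + 1)).image (fun j => s j + l) =
      tr l ((Finset.range (p + 1)).image s) := by
    ext w
    simp only [Finset.mem_image, CellA_tr_mem]
    constructor
    · rintro ⟨i, hi, rfl⟩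
      exact ⟨_, ⟨i, hi, rfl⟩, rfl⟩
    · rintro ⟨_, ⟨i, hi, rfl⟩, rfl⟩
      exact ⟨i, hi, rfl⟩
  unfold hat
  by_cases h : (∀ i < p, s i < s (i + 1)) ∧ Ch p s
  · rw [if_pos h, if_pos ⟨e1.2 h.1, e2.2 h.2⟩, e3, hx]
  · rw [if_neg h, if_neg fun h' => h ⟨e1.1 h'.1, e2.1 h'.2⟩]

theorem hat_of_inc {p : ℕ} (x : Co ι F) {s : ℕ → ι → ℤ} (h : ∀ i < p, s i < s (i + 1))
    (hs : Ch p s) : hat p x s = x ((Finset.range (p + 1)).image s) := by
  classical
  unfold hat
  rw [if_pos ⟨h, hs⟩]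

theorem hat_zero_of {p : ℕ} {x : Co ι F} {s : ℕ → ι → ℤ}
    (h : x ((Finset.range (p + 1)).image s) = 0) : hat p x s = 0 := by
  classical
  unfold hat
  split_ifs
  · exact h
  · rfl

/-- closed on Kuhn chains -/
theorem d_hat_zero {p : ℕ} {x : Co ι F} {X : Set (ι → ℤ)} (hd : dX X x = 0) {t : ℕ → ι → ℤ}
    (ht : Ch (p + 1) t) (hX : ∀ i ≤ p + 1, t i ∈ X) : d p (hat p x) t = 0 := by
  classical
  by_cases h : ∀ i < p + 1, t i < t (i + 1)
  · rw [d_hat x h ht, hat_of_inc _ h ht]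
    have h1 := congrFun hd ((Finset.range (p + 1 + 1)).image t)
    rw [dX_apply, if_pos] at h1
    · exact h1
    · refine ⟨Ch_Simp ht, fun v hv => ?_⟩
      obtain ⟨i, hi, rfl⟩ := Finset.mem_image.1 hv
      exact hX i (by rw [Finset.mem_range] at hi; omega)
  · simp only [not_forall] at h
    obtain ⟨i, hi, hne⟩ := h
    refine (Dg_hat p x).d t ⟨i, hi, ?_⟩
    by_contra he
    exact hne (lt_of_le_of_ne (ht i (i + 1) (by omega) (by omega)).1 he)

omit [DecidableEq ι] in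
theorem rk_tr (l : ι → ℤ) (σ : Finset (ι → ℤ)) (v : ι → ℤ) :
    Hat_rk (tr l σ) (v + l) = Hat_rk σ v := by
  classical
  unfold Hat_rk
  have h1 : (tr l σ).filter (fun w => w < v + l) = tr l (σ.filter fun w => w < v) := by
    ext w
    simp only [Finset.mem_filter, CellA_tr_mem]
    constructor
    · rintro ⟨⟨a, ha, rfl⟩, h⟩
      exact ⟨a, ⟨ha, (add_lt_add_iff_right l).1 h⟩, rfl⟩
    · rintro ⟨a, ⟨ha, h⟩, rfl⟩
      exact ⟨⟨a, ha, rfl⟩, (add_lt_add_iff_right l).2 h⟩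
  rw [h1]
  exact Finset.card_map _

omit [DecidableEq ι] in
theorem en_add {l : ι → ℤ} {σ : Finset (ι → ℤ)} (h : Simp σ) {i : ℕ} (hi : i < σ.card) :
    en (tr l σ) i = en σ i + l := by
  have hc : (tr l σ).card = σ.card := Finset.card_map _
  have hS : Simp (tr l σ) := CellA_tr_Simp.2 h
  obtain ⟨h1, h2⟩ := Hat_en h hi
  obtain ⟨h3, h4⟩ := Hat_en hS (i := i) (by omega)
  refine Hat_rk_inj hS h3 (CellA_tr_mem.2 ⟨_, h1, rfl⟩) ?_
  rw [h4, rk_tr, h2]

omit [DecidableEq ι] in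
theorem fl_add {q : ℕ} {c : K (ι → ℤ) F} (hc : Dep q c) {l : ι → ℤ}
    (hl : ∀ s : ℕ → ι → ℤ, c (fun j => s j + l) = c s) (σ : Finset (ι → ℤ)) :
    fl q c (tr l σ) = fl q c σ := by
  classical
  have hc' : (tr l σ).card = σ.card := Finset.card_map _
  unfold fl
  by_cases h : Simp σ ∧ σ.card = q + 1
  · rw [if_pos h, if_pos ⟨CellA_tr_Simp.2 h.1, hc'.trans h.2⟩, ← hl (en σ)]
    exact hc _ _ fun i hi => en_add h.1 (by omega)
  · rw [if_neg h, if_neg fun h' => h ⟨CellA_tr_Simp.1 h'.1, hc'.symm.trans h'.2⟩]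

theorem slip_grid' {L : AddSubgroup (ι → ℤ)} {X X₁ A A' : Set (ι → ℤ)} (hX : Inv L X)
    (hA' : Inv L A') (hAA : A' ⊆ A)
    (π : Equiv.Perm ι) (hπA : PInv π A')
    (g : ℕ → (ι → ℤ) → (ι → ℤ)) (r : ℕ) (κ : ℤ) (h0 : ∀ v, g 0 v = v)
    (hr : ∀ v, g r v = v ∘ π) (hL : ∀ i, ∀ l ∈ L, ∀ v, g i (v + l) = g i v + l)
    (hadj : ∀ i ≤ r, ∀ v w, (v ∈ X ∧ ∃ w ∈ X, w ∉ A' ∧ Adj v w) →
      (w ∈ X ∧ ∃ w' ∈ X, w' ∉ A' ∧ Adj w w') → Adj v w → ∀ x, |g i w x - g i v x| ≤ κ)
    (hstep : ∀ i < r, ∀ v, (v ∈ X ∧ ∃ w ∈ X, w ∉ A' ∧ Adj v w) →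
      ∀ x, |g (i + 1) v x - g i v x| ≤ κ)
    (hin : ∀ i ≤ r, ∀ v w, (v ∈ X ∧ ∃ w ∈ X, w ∉ A' ∧ Adj v w) →
      (∀ x, |w x - g i v x| ≤ 2 * κ) → w ∈ X₁)
    (hlow : ∀ i ≤ r, ∀ v w, (v ∈ X ∧ ∃ w ∈ X, w ∉ A' ∧ Adj v w) → v ∈ A' →
      (∀ x, |w x - g i v x| ≤ 2 * κ) → w ∈ A)
    (p : ℕ) {x : Co ι F} (hx : x ∈ co (F := F) L X₁ A (p + 1)) (hd : dX X₁ x = 0) :
    ∃ y ∈ co (F := F) L X A' p, cut (In X) (ta F π x) = dX X y := by
  classical
  set N : ℕ := (2 * κ).toNat + 1 with hN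
  have hNκ : 2 * κ ≤ (N : ℤ) := by
    rw [hN]
    push_cast
    have := Int.self_le_toNat (2 * κ)
    omega
  set u : K (ι → ℤ) F := hat p x with hu
  have hud : Dep p u := Dep.hat p x
  have hug : Dg p u := Dg_hat p x
  set w : K (ι → ℤ) F := E N p u with hw
  have hwd : Dep p w := Dep_E N p hud
  have hwl : ∀ l ∈ L, ∀ s : ℕ → ι → ℤ, w (fun j => s j + l) = w s := by
    intro l hl s
    rw [hw, E_add]
    congr 1
    funext t
    exact hat_add (hx.1 l hl) t
  -- mixed sequences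
  have hmx : ∀ i < r, ∀ q, ∀ s : ℕ → ι → ℤ,
      (∀ k ≤ q, (s k ∈ X ∧ ∃ w ∈ X, w ∉ A' ∧ Adj (s k) w)) →
      (∀ k ≤ q, ∀ l ≤ q, Adj (s k) (s l)) → ∀ j ≤ q, ∀ a ≤ q + 1, ∀ b ≤ q + 1, ∀ x,
        |mx (g i) (g (i + 1)) j s b x - mx (g i) (g (i + 1)) j s a x| ≤ 2 * κ := by
    intro i hi q s hs hsa j hj
    refine mx_box (fun a ha b hb => ?_) (fun a ha b hb => ?_) (fun a ha => ?_) hj
    · exact hadj i hi.le _ _ (hs a ha) (hs b hb) (hsa a ha b hb)
    · exact hadj (i + 1) hi _ _ (hs a ha) (hs b hb) (hsa a ha b hb)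
    · exact hstep i hi _ (hs a ha)
  have hclosed : ∀ i < r, ∀ s : ℕ → ι → ℤ,
      (∀ k ≤ p, (s k ∈ X ∧ ∃ w ∈ X, w ∉ A' ∧ Adj (s k) w)) →
      (∀ k ≤ p, ∀ l ≤ p, Adj (s k) (s l)) →
      ∀ j ≤ p, d p w (mx (g i) (g (i + 1)) j s) = 0 := by
    intro i hi s hs hsa j hj
    have h1 := hmx i hi p s hs hsa j hj
    have e1 : mx (g i) (g (i + 1)) j s 0 = g i (s 0) := by
      simp only [mx]
      rw [if_pos (Nat.zero_le _)]
    rw [hw, ← E_d N p hud hug]
    · have h2 : E N (p + 1) (d p u) (mx (g i) (g (i + 1)) j s) =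
          E N (p + 1) 0 (mx (g i) (g (i + 1)) j s) := by
        refine E_congr (lo := g i (s 0) - fun _ => 2 * κ) (hi := g i (s 0) + fun _ => 2 * κ) N
          (p + 1) ?_ ?_
        · intro t ht hb
          rw [Pi.zero_apply]
          refine d_hat_zero hd ht fun a ha => hin i hi.le (s 0) (t a) (hs 0 (Nat.zero_le _)) ?_
          intro x
          have e2 : g i (s 0) x - 2 * κ ≤ t a x := (hb a ha).1 x
          have e3 : t a x ≤ g i (s 0) x + 2 * κ := (hb a ha).2 x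
          rw [abs_le]
          omega
        · intro a ha
          have h3 := h1 0 (Nat.zero_le _) a ha
          rw [e1] at h3
          refine ⟨fun x => ?_, fun x => ?_⟩
          · show g i (s 0) x - 2 * κ ≤ _
            have := abs_le.1 (h3 x)
            omega
          · show _ ≤ g i (s 0) x + 2 * κ
            have := abs_le.1 (h3 x)
            omega
      rw [h2, E_zero]
      rfl
    · intro a ha b hb x
      have := abs_le.1 (h1 a ha b hb x)
      omega
  -- vanishing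
  have hvan : ∀ i < r, ∀ q, p = q + 1 → ∀ s : ℕ → ι → ℤ,
      (∀ k ≤ q, (s k ∈ X ∧ ∃ w ∈ X, w ∉ A' ∧ Adj (s k) w)) →
      (∀ k ≤ q, ∀ l ≤ q, Adj (s k) (s l)) → s 0 ∈ A' →
      pr (g i) (g (i + 1)) q w s = 0 := by
    intro i hi q hq s hs hsa hs0
    refine pr_zero' _ _ q fun j hj => ?_
    have h1 := hmx i hi q s hs hsa j hj
    have e1 : mx (g i) (g (i + 1)) j s 0 = g i (s 0) := by
      simp only [mx]
      rw [if_pos (Nat.zero_le _)]
    have h2 : E N p u (mx (g i) (g (i + 1)) j s) = E N p 0 (mx (g i) (g (i + 1)) j s) := by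
      refine E_congr (lo := g i (s 0) - fun _ => 2 * κ) (hi := g i (s 0) + fun _ => 2 * κ) N
        p ?_ ?_
      · intro t ht hb
        rw [Pi.zero_apply]
        refine hat_zero_of ?_
        by_contra hne
        refine (hx.2 _ hne).2.1 fun v hv => ?_
        obtain ⟨a, ha, rfl⟩ := Finset.mem_image.1 hv
        rw [Finset.mem_range] at ha
        refine hlow i hi.le (s 0) (t a) (hs 0 (Nat.zero_le _)) hs0 ?_
        intro x
        have e2 : g i (s 0) x - 2 * κ ≤ t a x := (hb a (by omega)).1 x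
        have e3 : t a x ≤ g i (s 0) x + 2 * κ := (hb a (by omega)).2 x
        rw [abs_le]
        omega
      · intro a ha
        have h3 := h1 0 (Nat.zero_le _) a (by omega)
        rw [e1] at h3
        refine ⟨fun x => ?_, fun x => ?_⟩
        · show g i (s 0) x - 2 * κ ≤ _
          have := abs_le.1 (h3 x)
          omega
        · show _ ≤ g i (s 0) x + 2 * κ
          have := abs_le.1 (h3 x)
          omega
    rw [hw, h2, E_zero]
    rfl
  -- the value on live simplices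
  have hval : ∀ σ, Simp σ → σ.card = p + 1 →
      w (fun j => g r (en σ j)) - w (fun j => g 0 (en σ j)) = x (Free_mp π σ) - x σ := by
    intro σ hσ hc
    obtain ⟨h1, h2, h3⟩ := en_spec hσ hc
    have e1 : (fun j => g 0 (en σ j)) = en σ := by
      funext j
      rw [h0]
    have e2 : (fun j => g r (en σ j)) = fun j => en σ j ∘ π := by
      funext j
      rw [hr]
    have h4 : Ch p (fun j => en σ j ∘ π) := fun i j hij hj =>
      ⟨fun y => (h2 i j hij hj).1 (π y), fun y => (h2 i j hij hj).2 (π y)⟩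
    have h5 : (Finset.range (p + 1)).image (fun j => en σ j ∘ π) = Free_mp π σ := by
      conv_rhs => rw [← h3]
      ext v
      simp only [Finset.mem_image, Free_mem]
      constructor
      · rintro ⟨i, hi, rfl⟩
        exact ⟨_, ⟨i, hi, rfl⟩, rfl⟩
      · rintro ⟨_, ⟨i, hi, rfl⟩, rfl⟩
        exact ⟨i, hi, rfl⟩
    rw [e1, e2, hw, E_kuhn (by omega) p hud hug h2, E_kuhn (by omega) p hud hug h4, hu,
      hat_of_inc x h1 h2, h3, hat_of_inc x (fun i hi => (Free_lt π).2 (h1 i hi)) h4, h5]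
  have hlive : ∀ σ, In X σ → ¬ (∀ v ∈ σ, v ∈ A') → σ.card = p + 1 →
      (∀ k ≤ p, (en σ k ∈ X ∧ ∃ w ∈ X, w ∉ A' ∧ Adj (en σ k) w)) ∧
      ∀ k ≤ p, ∀ l ≤ p, Adj (en σ k) (en σ l) := by
    intro σ hσ hn hc
    have h1 : ∀ k ≤ p, en σ k ∈ σ := fun k hk => (Hat_en hσ.1 (by omega)).1
    simp only [not_forall] at hn
    obtain ⟨v, hv, hvA⟩ := hn
    exact ⟨fun k hk => ⟨hσ.2 _ (h1 k hk), v, hσ.2 v hv, hvA, hσ.1 _ (h1 k hk) _ hv⟩,
      fun k hk l hl => hσ.1 _ (h1 k hk) _ (h1 l hl)⟩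
  have hLHS : ∀ σ, In X σ → (¬ (∀ v ∈ σ, v ∈ A') → σ.card = p + 1 → False) →
      x (Free_mp π σ) - x σ = 0 := by
    intro σ hσ h
    have h1 : x σ = 0 := by
      by_contra hne
      obtain ⟨h2, h3, h4⟩ := hx.2 _ hne
      exact h (fun h' => h3 fun v hv => hAA (h' v hv)) h4
    have h2 : x (Free_mp π σ) = 0 := by
      by_contra hne
      obtain ⟨h2, h3, h4⟩ := hx.2 _ hne
      rw [Free_card] at h4
      exact h (fun h' => h3 fun v hv => hAA ((Free_all hπA).2 h' v hv)) h4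
    rw [h1, h2, sub_zero]
  have hcut : ∀ σ, cut (In X) (ta F π x) σ = if In X σ then x (Free_mp π σ) - x σ else 0 :=
    fun σ => rfl
  cases p with
  | zero =>
    refine ⟨0, Submodule.zero_mem _, ?_⟩
    rw [map_zero]
    ext σ
    rw [hcut, Pi.zero_apply]
    by_cases hσ : In X σ
    · rw [if_pos hσ]
      by_cases h : ¬ (∀ v ∈ σ, v ∈ A') ∧ σ.card = 0 + 1
      · obtain ⟨h1, h2⟩ := hlive σ hσ h.1 h.2
        rw [← hval σ hσ.1 h.2, ← Finset.sum_range_sub (fun i => w (fun j => g i (en σ j)))]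
        refine Finset.sum_eq_zero fun i hi => ?_
        rw [Finset.mem_range] at hi
        rw [← pr_homotopy0 (g i) (g (i + 1)) hwd]
        exact pr_zero' _ _ 0 (hclosed i hi _ h1 h2)
      · exact hLHS σ hσ fun h1 h2 => h ⟨h1, h2⟩
    · rw [if_neg hσ]
  | succ q =>
    set Y : K (ι → ℤ) F := fun s => ∑ i ∈ Finset.range r, pr (g i) (g (i + 1)) q w s with hY
    have hYd : Dep q Y := by
      intro s t hst
      exact Finset.sum_congr rfl fun i _ => Dep_pr _ _ hwd s t hst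
    have hYl : ∀ l ∈ L, ∀ s : ℕ → ι → ℤ, Y (fun j => s j + l) = Y s := by
      intro l hl s
      refine Finset.sum_congr rfl fun i _ => ?_
      rw [pr_nat (g := g i) (g' := g (i + 1)) (φ := fun v => v + l) (ψ := fun v => v + l)
        (hL i l hl) (hL (i + 1) l hl)]
      congr 1
      funext t
      exact hwl l hl t
    set P : Finset (ι → ℤ) → Prop := fun σ => In X σ ∧ ¬ ∀ v ∈ σ, v ∈ A' with hP
    have hPt : ∀ l ∈ L, ∀ σ, P (tr l σ) ↔ P σ := by
      intro l hl σ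
      refine and_congr (CellA_tr_In hX hl) (not_congr ⟨fun h v hv => ?_, fun h v hv => ?_⟩)
      · exact (hA' l hl v).2 (h _ (CellA_tr_mem.2 ⟨v, hv, rfl⟩))
      · obtain ⟨v', hv', rfl⟩ := CellA_tr_mem.1 hv
        exact (hA' l hl v').1 (h v' hv')
    have hyv : ∀ σ, cut P (fl q Y) σ = if P σ then fl q Y σ else 0 := fun σ => by
      rw [cut_apply]
      split_ifs <;> rfl
    have hy : cut P (fl q Y) ∈ co (F := F) L X A' (q + 1) := by
      refine ⟨fun l hl σ => ?_, fun σ hne => ?_⟩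
      · rw [hyv, hyv, fl_add hYd (hYl l hl)]
        by_cases h : P σ
        · rw [if_pos h, if_pos ((hPt l hl σ).2 h)]
        · rw [if_neg h, if_neg fun h' => h ((hPt l hl σ).1 h')]
      · rw [hyv] at hne
        by_cases h : P σ
        · rw [if_pos h] at hne
          refine ⟨h.1, h.2, ?_⟩
          by_contra hc
          exact hne (by unfold fl; rw [if_neg fun h' => hc h'.2])
        · rw [if_neg h] at hne
          exact absurd rfl hne
    refine ⟨cut P (fl q Y), hy, ?_⟩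
    ext σ
    rw [hcut, dX_apply]
    by_cases hσ : In X σ
    · rw [if_pos hσ, if_pos hσ]
      by_cases h : ¬ (∀ v ∈ σ, v ∈ A') ∧ σ.card = q + 1 + 1
      · obtain ⟨h1, h2⟩ := hlive σ hσ h.1 h.2
        have h3 : ∑ v ∈ σ, sgn F σ v * cut P (fl q Y) (σ.erase v) = dd (fl q Y) σ := by
          rw [dd_apply]
          refine Finset.sum_congr rfl fun v hv => ?_
          congr 1
          rw [hyv]
          have hX' : In X (σ.erase v) := ⟨fun a ha b hb =>
            hσ.1 a (Finset.mem_of_mem_erase ha) b (Finset.mem_of_mem_erase hb),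
            fun a ha => hσ.2 a (Finset.mem_of_mem_erase ha)⟩
          have hcc : (σ.erase v).card = q + 1 := by
            rw [Finset.card_erase_of_mem hv, h.2]
            rfl
          by_cases hPe : P (σ.erase v)
          · rw [if_pos hPe]
          · rw [if_neg hPe]
            have hAe : ∀ a ∈ σ.erase v, a ∈ A' := by
              by_contra h'
              exact hPe ⟨hX', h'⟩
            have h4 : ∀ k ≤ q, en (σ.erase v) k ∈ σ.erase v := fun k hk =>
              (Hat_en hX'.1 (by omega)).1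
            obtain ⟨b, hb, hbA⟩ : ∃ b ∈ σ, b ∉ A' := by
              have := h.1
              simp only [not_forall] at this
              obtain ⟨b, hb, hbA⟩ := this
              exact ⟨b, hb, hbA⟩
            unfold fl
            rw [if_pos ⟨hX'.1, hcc⟩]
            symm
            refine Finset.sum_eq_zero fun i hi => ?_
            rw [Finset.mem_range] at hi
            refine hvan i hi q rfl _ (fun k hk => ?_) (fun k hk l hl => ?_)
              (hAe _ (h4 0 (Nat.zero_le _)))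
            · exact ⟨hX'.2 _ (h4 k hk), b, hσ.2 b hb, hbA,
                hσ.1 _ (Finset.mem_of_mem_erase (h4 k hk)) _ hb⟩
            · exact hX'.1 _ (h4 k hk) _ (h4 l hl)
        rw [h3, dd_fl hYd hσ.1 h.2, ← hval σ hσ.1 h.2]
        have h4 : fl (q + 1) (d q Y) σ = d q Y (en σ) := by
          unfold fl
          rw [if_pos ⟨hσ.1, h.2⟩]
        have h5 : d q Y (en σ) = ∑ i ∈ Finset.range r, d q (pr (g i) (g (i + 1)) q w) (en σ) :=
          d_sum q _ _ _
        rw [h4, h5, ← Finset.sum_range_sub (fun i => w (fun j => g i (en σ j)))]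
        refine Finset.sum_congr rfl fun i hi => ?_
        rw [Finset.mem_range] at hi
        rw [← pr_homotopy (g i) (g (i + 1)) q hwd,
          pr_zero' (g i) (g (i + 1)) (q + 1) (hclosed i hi _ h1 h2), add_zero]
      · rw [hLHS σ hσ fun h1 h2 => h ⟨h1, h2⟩]
        symm
        refine Finset.sum_eq_zero fun v hv => ?_
        have h1 : cut P (fl q Y) (σ.erase v) = 0 := by
          by_contra hne
          obtain ⟨h2, h3, h4⟩ := hy.2 _ hne
          refine h ⟨fun h' => h3 fun a ha => h' a (Finset.mem_of_mem_erase ha), ?_⟩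
          rw [Finset.card_erase_of_mem hv] at h4
          have := Finset.card_pos.2 ⟨v, hv⟩
          omega
        rw [h1, mul_zero]
    · rw [if_neg hσ, if_neg hσ]

end Pool.Agent.H65.FU
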